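import Pool.Agent.H4.AM.Targets

/-!
# AMX module P2: blocks of a direct product
-/

open scoped Classical

namespace AMx

namespace P2aux

/-- the number of conjugates of `x` is the index of the centraliser -/
theorem class_card {G : Type} [Group G] [Fintype G] (x : G) :
    (Finset.univ.filter (fun y : G => IsConj x y)).card = (Subgroup.centralizer {x}).index := by
  have e1 := Subgroup.index_mul_card (Subgroup.centralizer {x})
  have e2 := Subgroup.index_mul_card (MulAction.stabilizer (ConjAct G) x)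
  have e3 : Nat.card (ConjAct G) = Nat.card G := rfl
  rw [e3, ← e1, Subgroup.nat_card_centralizer_nat_card_stabilizer] at e2
  have e4 : 0 < Nat.card (MulAction.stabilizer (ConjAct G) x) := Nat.card_pos
  have e5 := Nat.eq_of_mul_eq_mul_right e4 e2
  rw [← e5, MulAction.index_stabilizer, Set.ncard_eq_toFinset_card']
  congr 1
  ext y
  rw [Finset.mem_filter, Set.mem_toFinset, ConjAct.mem_orbit_conjAct, isConj_comm]
  simp

theorem cen_one {G : Type} [Group G] [Fintype G] (χ : G → ℂ) (h : χ 1 ≠ 0) :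
    cen (MonoidHom.id G) χ 1 = 1 := by
  unfold cen
  rw [Finset.sum_eq_single (1 : G)]
  · rw [if_pos (show IsConj (1 : G) (MonoidHom.id G 1) from IsConj.refl _), div_self h]
  · intro y _ hy
    exact if_neg (fun hc => hy (isConj_one_right.mp hc))
  · intro h'
    exact absurd (Finset.mem_univ _) h'

theorem cen_cf {G : Type} [Group G] [Fintype G] (χ : G → ℂ) (hcf : CF χ) (h : χ 1 ≠ 0) (x : G) :
    cen (MonoidHom.id G) χ x * χ 1 = (Subgroup.centralizer {x}).index * χ x := by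
  unfold cen
  rw [div_mul_cancel₀ _ h, ← class_card]
  calc _ = ∑ y : G, (if IsConj x y then χ x else 0) := by
        refine Finset.sum_congr rfl fun y _ => ?_
        rw [MonoidHom.id_apply]
        by_cases hy : IsConj x y
        · rw [if_pos hy, if_pos hy]
          obtain ⟨c, hc⟩ := isConj_iff.mp hy
          rw [← hc, hcf]
        · rw [if_neg hy, if_neg hy]
    _ = _ := by rw [← Finset.sum_filter, Finset.sum_const, nsmul_eq_mul]

theorem isConj_prod {G K : Type} [Group G] [Group K] (g g' : G) (k k' : K) :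
    IsConj (g, k) (g', k') ↔ IsConj g g' ∧ IsConj k k' := by
  rw [isConj_iff, isConj_iff, isConj_iff]
  constructor
  · rintro ⟨⟨a, b⟩, h⟩
    simp only [Prod.mk_mul_mk, Prod.inv_mk, Prod.mk.injEq] at h
    exact ⟨⟨a, h.1⟩, ⟨b, h.2⟩⟩
  · rintro ⟨⟨a, ha⟩, ⟨b, hb⟩⟩
    exact ⟨(a, b), by simp only [Prod.mk_mul_mk, Prod.inv_mk, ha, hb]⟩

theorem cen_prod {G K : Type} [Group G] [Fintype G] [Group K] [Fintype K] (χ : G → ℂ)
    (ψ : K → ℂ) (g : G) (k : K) :
    cen (MonoidHom.id (G × K)) (fun p : G × K => χ p.1 * ψ p.2) (g, k) =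
      cen (MonoidHom.id G) χ g * cen (MonoidHom.id K) ψ k := by
  unfold cen
  rw [div_mul_div_comm]
  congr 1
  rw [Fintype.sum_prod_type, Finset.sum_mul_sum]
  refine Finset.sum_congr rfl fun a _ => Finset.sum_congr rfl fun b _ => ?_
  rw [MonoidHom.id_apply, MonoidHom.id_apply, MonoidHom.id_apply]
  by_cases h1 : IsConj g a
  · by_cases h2 : IsConj k b
    · rw [if_pos h1, if_pos h2, if_pos ((isConj_prod _ _ _ _).mpr ⟨h1, h2⟩)]
    · rw [if_pos h1, if_neg h2, if_neg (fun h => h2 ((isConj_prod _ _ _ _).mp h).2), mul_zero]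
  · rw [if_neg h1, if_neg (fun h => h1 ((isConj_prod _ _ _ _).mp h).1), zero_mul]

theorem centralizer_prod {G K : Type} [Group G] [Group K] (g : G) (k : K) :
    Subgroup.centralizer {(g, k)} =
      (Subgroup.centralizer {g}).prod (Subgroup.centralizer {k}) := by
  ext ⟨a, b⟩
  simp only [Subgroup.mem_centralizer_iff, Set.mem_singleton_iff, forall_eq, Subgroup.mem_prod,
    Prod.mk_mul_mk, Prod.mk.injEq]

theorem height_le {ℓ : ℕ} [hℓ : Fact ℓ.Prime] {𝔪 : Ideal (integralClosure ℤ ℂ)}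
    (hm : 𝔪.IsMaximal) (hl : (ℓ : integralClosure ℤ ℂ) ∈ 𝔪) (h1 : T_C1) (hL0 : T_L0)
    {G : Type} [Group G] [Fintype G] (χ χ' : G → ℂ) (_hχ : χ ∈ Irr G) (hχ' : χ' ∈ Irr G)
    (D : Subgroup G) (hD : IsDefect ℓ 𝔪 χ D) (hb : SameBlock 𝔪 χ χ') (d : ℕ) (hd : χ' 1 = d) :
    padicValNat ℓ D.index ≤ padicValNat ℓ d := by
  obtain ⟨-, ⟨x, hx, hDx, hr⟩, -⟩ := hD
  obtain ⟨L1, L2, L3, L4, L5, L6, L7, L8⟩ := hL0 𝔪 hm
  obtain ⟨⟨_, hcf, _, _⟩, ⟨d', hd', hd1⟩, hint, hcint⟩ := h1 G χ' hχ'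
  have hdd : d' = d := by
    rw [hd1] at hd
    exact_mod_cast hd
  subst hdd
  have hne : χ' 1 ≠ 0 := by
    rw [hd1]
    exact_mod_cast hd'.ne'
  have hx' : ¬ Cong 𝔪 (cen (MonoidHom.id G) χ' x) 0 := fun h => hx (L3 _ _ _ (hb x) h)
  have e1 := Subgroup.relIndex_mul_index hDx
  have hC0 : (Subgroup.centralizer {x}).index ≠ 0 := Subgroup.index_ne_zero_of_finite
  have hr0 : D.relIndex (Subgroup.centralizer {x}) ≠ 0 := fun h => hr (by rw [h]; exact dvd_zero _)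
  have e2 : padicValNat ℓ D.index = padicValNat ℓ (Subgroup.centralizer {x}).index := by
    rw [← e1, padicValNat.mul hr0 hC0, padicValNat.eq_zero_of_not_dvd hr, zero_add]
  rw [e2]
  by_contra hlt
  push Not at hlt
  have e3 := cen_cf χ' hcf hne x
  rw [hd1] at e3
  set c := (Subgroup.centralizer {x}).index with hc
  set i := padicValNat ℓ d' with hi
  obtain ⟨d0, hd0⟩ : ℓ ^ i ∣ d' := pow_padicValNat_dvd
  obtain ⟨m0, hm0⟩ : ℓ ^ (i + 1) ∣ c :=
    (pow_dvd_pow ℓ hlt).trans pow_padicValNat_dvd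
  have hd0n : ¬ ℓ ∣ d0 := by
    intro ⟨e, he⟩
    have : ℓ ^ (i + 1) ∣ d' := ⟨e, by rw [hd0, he]; ring⟩
    have h3 := (padicValNat_dvd_iff_le hd'.ne').mp this
    omega
  have hlne : (ℓ : ℂ) ^ i ≠ 0 := pow_ne_zero _ (by exact_mod_cast hℓ.out.ne_zero)
  have e4 : (d0 : ℂ) * cen (MonoidHom.id G) χ' x = ℓ * (m0 * χ' x) := by
    have h5 : (d' : ℂ) = (ℓ : ℂ) ^ i * d0 := by rw [hd0]; push_cast; ring
    have h6 : (c : ℂ) = (ℓ : ℂ) ^ (i + 1) * m0 := by rw [hm0]; push_cast; ring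
    rw [h5, h6] at e3
    apply mul_left_cancel₀ hlne
    calc (ℓ : ℂ) ^ i * (d0 * cen (MonoidHom.id G) χ' x) =
        cen (MonoidHom.id G) χ' x * ((ℓ : ℂ) ^ i * d0) := by ring
      _ = (ℓ : ℂ) ^ (i + 1) * m0 * χ' x := e3
      _ = _ := by ring
  have hnat : ∀ n : ℕ, IsIntegral ℤ (n : ℂ) := fun n => by
    exact_mod_cast isIntegral_algebraMap (R := ℤ) (x := (n : ℤ))
  have h7 : Cong 𝔪 ((d0 : ℂ) * cen (MonoidHom.id G) χ' x) 0 := by
    rw [e4]
    have h8 : Cong 𝔪 (ℓ : ℂ) 0 := (L8 ℓ hl ℓ).mpr dvd_rfl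
    have h9 := L5 (ℓ : ℂ) 0 (m0 * χ' x) ((hnat m0).mul (hint x)) h8
    rw [mul_zero, mul_comm] at h9
    exact h9
  rcases L7 _ _ (hnat d0) (hcint x) h7 with h | h
  · exact hd0n ((L8 ℓ hl d0).mp h)
  · exact hx' h

end P2aux

open P2aux in
theorem p2 (h1 : T_C1) (hL0 : T_L0) (_hL2 : T_L2) (hP1 : T_P1) : T_P2 := by
  intro ℓ hℓ 𝔪 hm hl G K _ _ _ _ χ ψ hχ hψ
  obtain ⟨L1, L2, L3, L4, L5, L6, L7, L8⟩ := hL0 𝔪 hm
  have ne1 : ∀ {G : Type} [Group G] [Fintype G] {χ : G → ℂ}, χ ∈ Irr G → χ 1 ≠ 0 := by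
    intro G _ _ χ hχ
    obtain ⟨_, ⟨d, hd, hd1⟩, _⟩ := h1 G χ hχ
    rw [hd1]
    exact_mod_cast hd.ne'
  have hsb : ∀ χ' ∈ Irr G, ∀ ψ' ∈ Irr K,
    (SameBlock 𝔪 (fun p : G × K => χ p.1 * ψ p.2) (fun p => χ' p.1 * ψ' p.2) ↔
      SameBlock 𝔪 χ χ' ∧ SameBlock 𝔪 ψ ψ') := by
    intro χ' hχ' ψ' hψ'
    constructor
    · intro h
      constructor
      · intro x
        have := h (x, 1)
        rwa [cen_prod, cen_prod, cen_one ψ (ne1 hψ), cen_one ψ' (ne1 hψ'), mul_one, mul_one] at this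
      · intro x
        have := h (1, x)
        rwa [cen_prod, cen_prod, cen_one χ (ne1 hχ), cen_one χ' (ne1 hχ'), one_mul, one_mul] at this
    · rintro ⟨ha, hb⟩ ⟨g, k⟩
      rw [cen_prod, cen_prod]
      have i1 := (h1 G χ hχ).2.2.2 g
      have i2 := (h1 K ψ' hψ').2.2.2 k
      have c1 := L5 _ _ _ i1 (hb k)
      have c2 := L5 _ _ _ i2 (ha g)
      rw [mul_comm, mul_comm (cen (MonoidHom.id K) ψ' k)] at c2
      exact L3 _ _ _ c1 c2
  refine ⟨hsb, ?_⟩
  intro D E hD hE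
  have hdef : IsDefect ℓ 𝔪 (fun p : G × K => χ p.1 * ψ p.2) (D.prod E) := by
    obtain ⟨hDp, ⟨g, hg, hDg, hDr⟩, hDc⟩ := hD
    obtain ⟨hEp, ⟨k, hk, hEk, hEr⟩, hEc⟩ := hE
    refine ⟨?_, ⟨(g, k), ?_, ?_, ?_⟩, ?_⟩
    · rintro ⟨⟨a, b⟩, ha, hb⟩
      obtain ⟨n, hn⟩ := hDp ⟨a, ha⟩
      obtain ⟨m, hm'⟩ := hEp ⟨b, hb⟩
      refine ⟨n + m, ?_⟩
      have hn' : a ^ ℓ ^ n = 1 := by
        have := congrArg Subtype.val hn
        simpa using this
      have hm'' : b ^ ℓ ^ m = 1 := by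
        have := congrArg Subtype.val hm'
        simpa using this
      apply Subtype.ext
      show (a, b) ^ ℓ ^ (n + m) = 1
      rw [Prod.pow_mk, pow_add, pow_mul, hn', one_pow, mul_comm, pow_mul, hm'', one_pow]
      rfl
    · rw [cen_prod]
      intro h
      rcases L7 _ _ ((h1 G χ hχ).2.2.2 g) ((h1 K ψ hψ).2.2.2 k) h with h | h
      · exact hg h
      · exact hk h
    · rw [centralizer_prod]
      exact Subgroup.prod_mono hDg hEk
    · have hle : D.prod E ≤ Subgroup.centralizer {(g, k)} := by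
        rw [centralizer_prod]
        exact Subgroup.prod_mono hDg hEk
      have a1 := Subgroup.relIndex_mul_index hle
      have a2 := Subgroup.relIndex_mul_index hDg
      have a3 := Subgroup.relIndex_mul_index hEk
      rw [Subgroup.index_prod, ← a2, ← a3] at a1
      have a4 : (Subgroup.centralizer {(g, k)}).index =
          (Subgroup.centralizer {g}).index * (Subgroup.centralizer {k}).index := by
        rw [centralizer_prod, Subgroup.index_prod]
      rw [a4] at a1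
      have n1 : (Subgroup.centralizer {g}).index ≠ 0 := Subgroup.index_ne_zero_of_finite
      have n2 : (Subgroup.centralizer {k}).index ≠ 0 := Subgroup.index_ne_zero_of_finite
      have a5 : (D.prod E).relIndex (Subgroup.centralizer {(g, k)}) =
          D.relIndex (Subgroup.centralizer {g}) * E.relIndex (Subgroup.centralizer {k}) := by
        apply Nat.eq_of_mul_eq_mul_right (Nat.pos_of_ne_zero (mul_ne_zero n1 n2))
        rw [a1]
        ring
      rw [a5]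
      intro h
      rcases (hℓ.out.dvd_mul).mp h with h | h
      · exact hDr h
      · exact hEr h
    · rintro ⟨a, b⟩ hab
      rw [cen_prod] at hab
      have ha : ¬ Cong 𝔪 (cen (MonoidHom.id G) χ a) 0 := by
        intro h
        have := L5 _ _ _ ((h1 K ψ hψ).2.2.2 b) h
        rw [mul_zero, mul_comm] at this
        exact hab this
      have hb : ¬ Cong 𝔪 (cen (MonoidHom.id K) ψ b) 0 := by
        intro h
        have := L5 _ _ _ ((h1 G χ hχ).2.2.2 a) h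
        rw [mul_zero] at this
        exact hab this
      obtain ⟨u, hu⟩ := hDc a ha
      obtain ⟨v, hv⟩ := hEc b hb
      refine ⟨(u, v), ?_⟩
      rintro ⟨d, e⟩ ⟨hd, he⟩
      rw [centralizer_prod]
      exact ⟨hu d hd, hv e he⟩
  refine ⟨hdef, ?_⟩
  unfold k0
  set S1 : Set (G → ℂ) := {χ' : G → ℂ | χ' ∈ Irr G ∧ SameBlock 𝔪 χ χ' ∧
    ∃ d : ℕ, χ' 1 = d ∧ padicValNat ℓ d = padicValNat ℓ D.index} with hS1
  set S2 : Set (K → ℂ) := {χ' : K → ℂ | χ' ∈ Irr K ∧ SameBlock 𝔪 ψ χ' ∧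
    ∃ d : ℕ, χ' 1 = d ∧ padicValNat ℓ d = padicValNat ℓ E.index} with hS2
  have himg : {φ : G × K → ℂ | φ ∈ Irr (G × K) ∧
      SameBlock 𝔪 (fun p : G × K => χ p.1 * ψ p.2) φ ∧
      ∃ d : ℕ, φ 1 = d ∧ padicValNat ℓ d = padicValNat ℓ (D.prod E).index} =
      (fun q : (G → ℂ) × (K → ℂ) => (fun p : G × K => q.1 p.1 * q.2 p.2)) '' (S1 ×ˢ S2) := by
    ext φ
    simp only [Set.mem_ofPred_eq, Set.mem_image, Set.mem_prod, Prod.exists]
    have hDi : D.index ≠ 0 := Subgroup.index_ne_zero_of_finite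
    have hEi : E.index ≠ 0 := Subgroup.index_ne_zero_of_finite
    constructor
    · rintro ⟨hφ, hφb, d, hd, hdv⟩
      obtain ⟨χ', hχ', ψ', hψ', rfl⟩ := (hP1 G K φ).mp hφ
      obtain ⟨b1, b2⟩ := (hsb χ' hχ' ψ' hψ').mp hφb
      obtain ⟨_, ⟨d1, hd1, hd1'⟩, _⟩ := h1 G χ' hχ'
      obtain ⟨_, ⟨d2, hd2, hd2'⟩, _⟩ := h1 K ψ' hψ'
      have hdd : d = d1 * d2 := by
        have : χ' 1 * ψ' 1 = (d : ℂ) := hd
        rw [hd1', hd2'] at this
        exact_mod_cast this.symm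
      have v1 := height_le hm hl h1 hL0 χ χ' hχ hχ' D hD b1 d1 hd1'
      have v2 := height_le hm hl h1 hL0 ψ ψ' hψ hψ' E hE b2 d2 hd2'
      rw [hdd, Subgroup.index_prod, padicValNat.mul hd1.ne' hd2.ne', padicValNat.mul hDi hEi] at hdv
      exact ⟨χ', ψ', ⟨⟨hχ', b1, d1, hd1', by omega⟩, ⟨hψ', b2, d2, hd2', by omega⟩⟩, rfl⟩
    · rintro ⟨χ', ψ', ⟨⟨hχ', b1, d1, hd1, hv1⟩, ⟨hψ', b2, d2, hd2, hv2⟩⟩, rfl⟩
      have z1 : d1 ≠ 0 := by
        rintro rfl
        exact ne1 hχ' (by rw [hd1]; simp)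
      have z2 : d2 ≠ 0 := by
        rintro rfl
        exact ne1 hψ' (by rw [hd2]; simp)
      refine ⟨(hP1 G K _).mpr ⟨χ', hχ', ψ', hψ', rfl⟩, (hsb χ' hχ' ψ' hψ').mpr ⟨b1, b2⟩,
        d1 * d2, ?_, ?_⟩
      · show χ' 1 * ψ' 1 = _
        rw [hd1, hd2]
        push_cast
        ring
      · rw [Subgroup.index_prod, padicValNat.mul z1 z2, padicValNat.mul hDi hEi, hv1, hv2]
  rw [himg, Set.InjOn.ncard_image, Set.ncard_prod]
  rintro ⟨a, b⟩ ⟨⟨ha, -⟩, ⟨hb, -⟩⟩ ⟨a', b'⟩ ⟨⟨ha', -⟩, ⟨hb', -⟩⟩ heq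
  simp only at ha hb ha' hb' heq
  have e : ∀ g k, a g * b k = a' g * b' k := fun g k => congrFun heq (g, k)
  have ea1 := ne1 ha
  have eb1 := ne1 hb
  have ea1' := ne1 ha'
  have eb1' := ne1 hb'
  -- ratio c = b' 1 / b 1, a g = c * a' g; norms give c^2 = 1, positivity gives c = 1
  obtain ⟨⟨⟨r, hr, hr1⟩, _, _, hn⟩, _⟩ := h1 K b hb
  obtain ⟨⟨⟨r', hr', hr1'⟩, _, _, hn'⟩, _⟩ := h1 K b' hb'
  obtain ⟨⟨⟨s, hs, hs1⟩, _, _, hm1⟩, _⟩ := h1 G a ha
  obtain ⟨⟨⟨s', hs', hs1'⟩, _, _, hm1'⟩, _⟩ := h1 G a' ha'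
  set c : ℂ := b' 1 / b 1 with hcdef
  have hac : ∀ g, a g = c * a' g := by
    intro g
    rw [hcdef]
    field_simp
    have := e g 1
    linear_combination this
  have hc2 : c * c = 1 := by
    have q1 : ∑ x, a x * a x⁻¹ = c * c * ∑ x, a' x * a' x⁻¹ := by
      rw [Finset.mul_sum]
      refine Finset.sum_congr rfl fun x _ => ?_
      rw [hac x, hac x⁻¹]
      ring
    rw [hm1, hm1'] at q1
    have q2 : (Nat.card G : ℂ) ≠ 0 := by
      have : 0 < Nat.card G := Nat.card_pos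
      exact_mod_cast this.ne'
    have q3 : (c * c - 1) * Nat.card G = 0 := by linear_combination -q1
    rcases mul_eq_zero.mp q3 with h | h
    · linear_combination h
    · exact absurd h q2
  have hcr : c = ((r' / r : ℝ) : ℂ) := by
    rw [hcdef, hr1, hr1']
    push_cast
    rfl
  have hc1 : c = 1 := by
    have q : (r' / r) * (r' / r) = 1 := by
      rw [hcr] at hc2
      exact_mod_cast hc2
    have q4 : 0 < r' / r := div_pos hr' hr
    have q5 : r' / r = 1 := by nlinarith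
    rw [hcr, q5]
    simp
  have haa : a = a' := by
    funext g
    rw [hac g, hc1, one_mul]
  subst haa
  have hbb : b = b' := by
    funext k
    have := e 1 k
    exact mul_left_cancel₀ ea1 this
  rw [hbb]

end AMx
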