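import Pool.Agent.H4.AM.Targets

/-!
# AMX module F4: integral class functions of `T` lift to integral class functions of `X`
-/

open scoped Classical

namespace AMx

namespace F4aux

/-- an idempotent of trace zero over `ℂ` vanishes -/
theorem idem_trace_zero {n : ℕ} (p : (Fin n → ℂ) →ₗ[ℂ] (Fin n → ℂ)) (hp : IsIdempotentElem p)
    (ht : LinearMap.trace ℂ _ p = 0) : p = 0 := by
  have h1 := LinearMap.IsIdempotentElem.isProj_range p hp
  have h2 := LinearMap.IsProj.trace h1
  rw [ht] at h2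
  have h3 : Module.finrank ℂ (LinearMap.range p) = 0 := by
    exact_mod_cast h2.symm
  have h4 : LinearMap.range p = ⊥ := Submodule.finrank_eq_zero.mp h3
  exact LinearMap.range_eq_bot.mp h4

theorem sum_cf {X : Type} [Group X] [Fintype X] (f χ : X → ℂ) (hχ : CF χ) (y : X) :
    ∑ x, f (y * x⁻¹ * y⁻¹) * χ x = ∑ x, f x⁻¹ * χ x := by
  refine Fintype.sum_equiv (MulAut.conj y).toEquiv _ _ ?_
  intro x
  have h1 : (MulAut.conj y).toEquiv x = y * x * y⁻¹ := rfl
  rw [h1, hχ y x]
  congr 2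
  group

end F4aux

open F4aux in
theorem f4 (h1 : T_C1) (_h0 : T_F0) (hF1 : T_F1) (_h3 : T_F3) : T_F4 := by
  intro ℓ X T _ _ _ _ F α hα hint
  obtain ⟨f1, f2, f3, f4, f5, f6⟩ := hF1 ℓ X T F
  set αm : T → ℂ := fun t => α t⁻¹ with hαm
  have hαmCF : CF αm := by
    intro g x
    show α (g * x * g⁻¹)⁻¹ = α x⁻¹
    have : (g * x * g⁻¹)⁻¹ = g * x⁻¹ * g⁻¹ := by group
    rw [this, hα]
  have hA : CF (fun x => F.ind αm x⁻¹) := by
    intro g x
    show F.ind αm (g * x * g⁻¹)⁻¹ = F.ind αm x⁻¹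
    have : (g * x * g⁻¹)⁻¹ = g * x⁻¹ * g⁻¹ := by group
    rw [this, f1 αm g]
  have hV : ∀ {v}, v ∈ F.V ↔ v⁻¹ ∈ F.V := fun {v} => (inv_mem_iff).symm
  refine ⟨hA, ?_, ?_, ?_⟩
  · intro x
    exact f6 αm (fun t => hint _) hαmCF _
  · intro ψ hψ
    have hph : ∀ t, F.ph (fun x => F.ind αm x⁻¹) t = Nat.card F.V * α t := by
      intro t
      have e1 : F.ph (fun x => F.ind αm x⁻¹) t = ∑ x, F.ind αm (x * F.io t)⁻¹ * F.lam x := rfl
      rw [e1]
      have e2 := f4 αm hαmCF t⁻¹
      have e3 : αm t⁻¹ = α t := by simp [hαm]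
      rw [e3] at e2
      rw [← e2]
      refine Fintype.sum_equiv (Equiv.inv X) _ _ ?_
      intro x
      have e4 : (x * F.io t)⁻¹ = (F.io t)⁻¹ * (x⁻¹ * F.io t⁻¹) * ((F.io t)⁻¹)⁻¹ := by
        rw [map_inv]
        group
      rw [e4, f1 αm (F.io t)⁻¹ (x⁻¹ * F.io t⁻¹)]
      simp only [Equiv.inv_apply, inv_inv]
      ring
    have e5 := f3 ψ (fun x => F.ind αm x⁻¹) hA
    rw [e5, f2 ψ]
    simp only [hph]
    obtain ⟨⟨r, _⟩, ⟨d, hd, hd1⟩, _⟩ := h1 T ψ hψ
    have hψ1 : ψ 1 ≠ 0 := by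
      rw [hd1]
      exact_mod_cast hd.ne'
    have hix : (F.ix : ℂ) ≠ 0 := by
      have := (_h0 ℓ X T F).2.1
      exact_mod_cast this.ne'
    have e6 : ∑ t, (Nat.card F.V : ℂ) * α t * ψ t = Nat.card F.V * ∑ t, α t * ψ t := by
      rw [Finset.mul_sum]
      refine Finset.sum_congr rfl fun t _ => by ring
    rw [e6]
    field_simp
  · intro χ hχ hz
    obtain ⟨⟨_, hcf, _, _⟩, _⟩ := h1 X χ hχ
    obtain ⟨n, ρ, _, rfl⟩ := hχ
    have hχdef : ∀ g, ρ.character g = LinearMap.trace ℂ _ (ρ g) := fun g => rfl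
    -- the operator e
    set e : (Fin n → ℂ) →ₗ[ℂ] (Fin n → ℂ) := ∑ x : X, F.lam x⁻¹ • ρ x with he
    have hcardV : (Nat.card F.V : ℂ) ≠ 0 := by
      have : 0 < Nat.card F.V := Nat.card_pos
      exact_mod_cast this.ne'
    have hee : e * e = (Nat.card F.V : ℂ) • e := by
      have s1 : e * e = ∑ z : X, (∑ x : X, F.lam x⁻¹ * F.lam (z⁻¹ * x)) • ρ z := by
        rw [he, Finset.sum_mul]
        have : ∀ x : X, (F.lam x⁻¹ • ρ x) * (∑ y : X, F.lam y⁻¹ • ρ y) =
            ∑ z : X, (F.lam x⁻¹ * F.lam (z⁻¹ * x)) • ρ z := by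
          intro x
          rw [Finset.mul_sum]
          refine Fintype.sum_equiv (Equiv.mulLeft x) _ _ ?_
          intro y
          have e1 : (Equiv.mulLeft x) y = x * y := rfl
          rw [e1, map_mul, smul_mul_smul_comm]
          congr 2
          congr 1
          group
        simp only [this]
        rw [Finset.sum_comm]
        refine Finset.sum_congr rfl fun z _ => ?_
        rw [Finset.sum_smul]
      rw [s1, he, Finset.smul_sum]
      refine Finset.sum_congr rfl fun z _ => ?_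
      rw [smul_smul]
      congr 1
      have s2 : ∀ x : X, F.lam x⁻¹ * F.lam (z⁻¹ * x) = if x ∈ F.V then F.lam z⁻¹ else 0 := by
        intro x
        by_cases hx : x ∈ F.V
        · rw [if_pos hx]
          have hx' : x⁻¹ ∈ F.V := inv_mem hx
          by_cases hzV : z⁻¹ ∈ F.V
          · rw [F.lam_mul _ hzV _ hx]
            have : F.lam x⁻¹ * F.lam x = 1 := by
              rw [← F.lam_mul _ hx' _ hx, inv_mul_cancel, F.lam_one]
            calc F.lam x⁻¹ * (F.lam z⁻¹ * F.lam x) = (F.lam x⁻¹ * F.lam x) * F.lam z⁻¹ := by ring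
              _ = _ := by rw [this, one_mul]
          · have h5 : z⁻¹ * x ∉ F.V := by
              intro h6
              exact hzV ((Subgroup.mul_mem_cancel_right _ hx).mp h6)
            rw [F.lam_off _ h5, F.lam_off _ hzV, mul_zero]
        · rw [if_neg hx]
          have hx' : x⁻¹ ∉ F.V := fun h => hx (hV.mpr h)
          rw [F.lam_off _ hx', zero_mul]
      simp only [s2]
      rw [← Finset.sum_filter, Finset.sum_const, nsmul_eq_mul]
      congr 2
      rw [Nat.card_eq_fintype_card, Fintype.card_subtype]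
    have htr : LinearMap.trace ℂ _ e = 0 := by
      rw [he, map_sum, ← hz]
      refine Finset.sum_congr rfl fun x _ => ?_
      rw [map_smul, smul_eq_mul, hχdef]
    have he0 : e = 0 := by
      have i1 : IsIdempotentElem ((Nat.card F.V : ℂ)⁻¹ • e) := by
        unfold IsIdempotentElem
        rw [smul_mul_smul_comm, hee, smul_smul]
        congr 1
        field_simp
      have i2 := idem_trace_zero _ i1 (by rw [map_smul, htr, smul_zero])
      exact (smul_eq_zero.mp i2).resolve_left (inv_ne_zero hcardV)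
    have key : ∀ s : X, ∑ z : X, F.lam z⁻¹ * ρ.character (s * z) = 0 := by
      intro s
      have : ∑ z : X, F.lam z⁻¹ * ρ.character (s * z) = LinearMap.trace ℂ _ (ρ s * e) := by
        rw [he, Finset.mul_sum, map_sum]
        refine Finset.sum_congr rfl fun z _ => ?_
        rw [hχdef, map_mul, mul_smul_comm, map_smul, smul_eq_mul]
      rw [this, he0, mul_zero, map_zero]
    have main : ∑ x, F.th αm x⁻¹ * ρ.character x = 0 := by
      have m1 : ∀ x, F.th αm x⁻¹ * ρ.character x =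
          ∑ t, αm t * (F.lam (x⁻¹ * (F.io t)⁻¹) * ρ.character x) := by
        intro x
        have : F.th αm x⁻¹ = ∑ t, F.lam (x⁻¹ * (F.io t)⁻¹) * αm t := rfl
        rw [this, Finset.sum_mul]
        refine Finset.sum_congr rfl fun t _ => by ring
      simp only [m1]
      rw [Finset.sum_comm]
      refine Finset.sum_eq_zero fun t _ => ?_
      rw [← Finset.mul_sum]
      have m2 : ∑ x, F.lam (x⁻¹ * (F.io t)⁻¹) * ρ.character x =
          ∑ z : X, F.lam z⁻¹ * ρ.character ((F.io t)⁻¹ * z) := by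
        refine Fintype.sum_equiv (Equiv.mulLeft (F.io t)) _ _ ?_
        intro x
        have e1 : (Equiv.mulLeft (F.io t)) x = F.io t * x := rfl
        rw [e1, mul_inv_rev, inv_mul_cancel_left]
      rw [m2, key, mul_zero]
    have fin : ∀ x, F.ind αm x⁻¹ * ρ.character x =
        ∑ y, (F.th αm (y * x⁻¹ * y⁻¹) * ρ.character x) / (Nat.card F.V * Nat.card T) := by
      intro x
      have : F.ind αm x⁻¹ = (∑ y, F.th αm (y * x⁻¹ * y⁻¹)) / (Nat.card F.V * Nat.card T) := rfl
      rw [this, div_mul_eq_mul_div, Finset.sum_mul, Finset.sum_div]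
    show ∑ x, F.ind αm x⁻¹ * ρ.character x = 0
    simp only [fin]
    rw [Finset.sum_comm]
    refine Finset.sum_eq_zero fun y _ => ?_
    rw [← Finset.sum_div, sum_cf _ _ hcf y, main, zero_div]

end AMx
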